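import Pool.Agent.H87.LE.Base

/-!
# Integrability of singular powers (for module A14)
-/

open MeasureTheory Complex Set Filter Topology
open scoped ContDiff Laplacian

namespace Pool.Agent.H86.LE

/-- `|t - c|^(-r)` is integrable on bounded intervals if `r < 1` -/
theorem absPow_int {r : ℝ} (hr : r < 1) (c R : ℝ) :
    IntegrableOn (fun t : ℝ => |t - c| ^ (-r)) (Ioo (-R) R) := by
  have h : LocallyIntegrable (fun t : ℝ => |t| ^ (-r)) volume := by
    refine locallyIntegrable_of_norm_le_rpow (C := 1) (α := r) (by simp) (by simpa using hr) ?_ ?_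
    · refine Eventually.of_forall fun x => ?_
      rw [Real.norm_eq_abs, Real.norm_eq_abs, one_mul, abs_of_nonneg (Real.rpow_nonneg (abs_nonneg _) _)]
    · exact (measurable_id.abs.pow_const _).aestronglyMeasurable
  have h2 : IntegrableOn (fun t : ℝ => |t| ^ (-r)) (Icc (-R - c) (R - c)) :=
    h.integrableOn_isCompact isCompact_Icc
  have h3 : Integrable ((Icc (-R - c) (R - c)).indicator fun t : ℝ => |t| ^ (-r)) :=
    h2.integrable_indicator measurableSet_Icc
  have h4 := h3.comp_sub_right c
  have h5 : IntegrableOn (fun t : ℝ => |t - c| ^ (-r)) (Icc (-R) R) := by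
    rw [← integrable_indicator_iff measurableSet_Icc]
    refine h4.congr (Eventually.of_forall fun t => ?_)
    beta_reduce
    by_cases ht : t ∈ Icc (-R) R
    · rw [indicator_of_mem ht, indicator_of_mem]
      exact ⟨by linarith [ht.1], by linarith [ht.2]⟩
    · rw [indicator_of_notMem ht, indicator_of_notMem]
      intro h
      exact ht ⟨by linarith [h.1], by linarith [h.2]⟩
  exact h5.mono_set Ioo_subset_Icc_self

/-- `|sin (π t/2)| ≥ min (|t|, 2-|t|)` -/
theorem sin_lower {t : ℝ} (h0 : 0 ≤ t) (h1 : t ≤ 1) : t ≤ Real.sin (Real.pi / 2 * t) := by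
  have := Real.mul_le_sin (x := Real.pi / 2 * t) (by positivity)
    (by nlinarith [Real.pi_pos])
  have h2 : 2 / Real.pi * (Real.pi / 2 * t) = t := by
    field_simp
  rwa [h2] at this

theorem abs_sin_lower {t : ℝ} (ht : |t| ≤ 1) : |t| ≤ |Real.sin (Real.pi / 2 * t)| := by
  rcases le_total 0 t with h | h
  · rw [abs_of_nonneg h] at ht ⊢
    exact (sin_lower h ht).trans (le_abs_self _)
  · rw [abs_of_nonpos h] at ht ⊢
    have := sin_lower (t := -t) (by linarith) ht
    have h2 : Real.sin (Real.pi / 2 * -t) = - Real.sin (Real.pi / 2 * t) := by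
      rw [mul_neg, Real.sin_neg]
    rw [h2] at this
    exact this.trans (neg_le_abs _)

/-- negative powers of the sine are dominated by three singular powers -/
theorem sin_pow_le {r : ℝ} (hr : 0 < r) {t : ℝ} (ht : |t| < 2) :
    |Real.sin (Real.pi / 2 * t)| ^ (-r) ≤ |t - 0| ^ (-r) + |t - 2| ^ (-r) + |t - (-2)| ^ (-r) := by
  have h1 : 0 ≤ |t - 0| ^ (-r) := Real.rpow_nonneg (abs_nonneg _) _
  have h2 : 0 ≤ |t - 2| ^ (-r) := Real.rpow_nonneg (abs_nonneg _) _
  have h3 : 0 ≤ |t - (-2)| ^ (-r) := Real.rpow_nonneg (abs_nonneg _) _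
  by_cases h0 : t = 0
  · subst h0
    simp only [mul_zero, Real.sin_zero, abs_zero, sub_zero] at *
    rw [Real.zero_rpow (by linarith : -r ≠ 0)]
    positivity
  rcases abs_lt.mp ht with ⟨ha, hb⟩
  rcases le_or_gt |t| 1 with h | h
  · have : |Real.sin (Real.pi / 2 * t)| ^ (-r) ≤ |t - 0| ^ (-r) := by
      rw [sub_zero]
      exact Real.rpow_le_rpow_of_nonpos (abs_pos.mpr h0) (abs_sin_lower h) (by linarith)
    linarith
  · rcases le_total 0 t with h' | h'
    · rw [abs_of_nonneg h'] at h
      have e : Real.sin (Real.pi / 2 * t) = - Real.sin (Real.pi / 2 * (t - 2)) := by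
        rw [mul_sub, show Real.pi / 2 * 2 = Real.pi by ring, Real.sin_sub_pi, neg_neg]
      have : |Real.sin (Real.pi / 2 * t)| ^ (-r) ≤ |t - 2| ^ (-r) := by
        rw [e, abs_neg]
        exact Real.rpow_le_rpow_of_nonpos (abs_pos.mpr (by linarith)) 
          (abs_sin_lower (by rw [abs_le]; constructor <;> linarith)) (by linarith)
      linarith
    · rw [abs_of_nonpos h'] at h
      have e : Real.sin (Real.pi / 2 * t) = - Real.sin (Real.pi / 2 * (t - -2)) := by
        rw [mul_sub, show Real.pi / 2 * -2 = -Real.pi by ring, sub_neg_eq_add, Real.sin_add_pi, neg_neg]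
      have : |Real.sin (Real.pi / 2 * t)| ^ (-r) ≤ |t - -2| ^ (-r) := by
        rw [e, abs_neg]
        refine Real.rpow_le_rpow_of_nonpos (abs_pos.mpr (by linarith)) 
          (abs_sin_lower (by rw [abs_le]; constructor <;> linarith)) (by linarith)
      linarith

/-- 1D integrability of `|sin (π t/2)|^(-r)` over `(-2,2)` -/
theorem sin_pow_int {r : ℝ} (hr : 0 < r) (hr1 : r < 1) :
    IntegrableOn (fun t : ℝ => |Real.sin (Real.pi / 2 * t)| ^ (-r)) (Ioo (-2) 2) := by
  have h := ((absPow_int hr1 0 2).add (absPow_int hr1 2 2)).add (absPow_int hr1 (-2) 2)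
  refine Integrable.mono' h ?_ ?_
  · have : Measurable fun t : ℝ => |Real.sin (Real.pi / 2 * t)| ^ (-r) := by
      have h1 : Measurable fun t : ℝ => Real.sin (Real.pi / 2 * t) := by fun_prop
      exact h1.abs.pow_const _
    exact this.aestronglyMeasurable
  · refine (ae_restrict_iff' measurableSet_Ioo).mpr (Eventually.of_forall fun t ht => ?_)
    rw [Real.norm_of_nonneg (Real.rpow_nonneg (abs_nonneg _) _)]
    exact sin_pow_le hr (abs_lt.mpr ht)

/-- the truncated power of the sine -/
noncomputable def sG (r : ℝ) : ℝ → ℝ :=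
  (Ioo (-2 : ℝ) 2).indicator fun t => |Real.sin (Real.pi / 2 * t)| ^ (-r)

theorem sG_int {r : ℝ} (hr : 0 < r) (hr1 : r < 1) : Integrable (sG r) :=
  (sin_pow_int hr hr1).integrable_indicator measurableSet_Ioo

/-- the truncated power -/
noncomputable def pG (r : ℝ) : ℝ → ℝ :=
  (Ioo (-2 : ℝ) 2).indicator fun t => |t| ^ (-r)

theorem pG_int {r : ℝ} (hr1 : r < 1) : Integrable (pG r) := by
  have := absPow_int hr1 0 2
  simp only [sub_zero] at this
  exact this.integrable_indicator measurableSet_Ioo

/-- the truncated constant -/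
noncomputable def oG : ℝ → ℝ := (Ioo (-2 : ℝ) 2).indicator fun _ => 1

theorem oG_int : Integrable oG := by
  have h : IntegrableOn (fun _ : ℝ => (1 : ℝ)) (Ioo (-2 : ℝ) 2) := integrableOn_const (by simp) (by simp)
  exact h.integrable_indicator measurableSet_Ioo

theorem prod0 {F G : ℝ → ℝ} (hF : Integrable F) (hG : Integrable G) :
    Integrable fun z : ℂ => F z.re * G z.im := by
  have h := hF.mul_prod hG
  exact Complex.volume_preserving_equiv_real_prod.integrable_comp_of_integrable h

theorem prod1 {F G : ℝ → ℝ} (hF : Integrable F) (hG : Integrable G) :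
    Integrable fun z : ℂ => F z.re * G (z.re + z.im) := by
  have h := hF.mul_prod hG
  have h2 := (measurePreserving_prod_add (volume : Measure ℝ) (volume : Measure ℝ)).integrable_comp_of_integrable h
  exact Complex.volume_preserving_equiv_real_prod.integrable_comp_of_integrable h2

theorem prod2 {F G : ℝ → ℝ} (hF : Integrable F) (hG : Integrable G) :
    Integrable fun z : ℂ => F z.im * G (z.re - z.im) := by
  have h := hF.mul_prod hG
  have h2 := (measurePreserving_prod_neg_add (volume : Measure ℝ) (volume : Measure ℝ)).integrable_comp_of_integrable h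
  have h3 := (Measure.measurePreserving_swap (μ := (volume : Measure ℝ)) (ν := (volume : Measure ℝ))).integrable_comp_of_integrable h2
  have h4 := Complex.volume_preserving_equiv_real_prod.integrable_comp_of_integrable h3
  refine h4.congr (Eventually.of_forall fun z => ?_)
  simp [Function.comp_def, Complex.measurableEquivRealProd, neg_add_eq_sub]

end Pool.Agent.H86.LE
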